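import Pool.Agent.W842.BV.Stms

/-!
# Six points of a linear triangle-free triple system span at most two edges
-/

set_option autoImplicit false

namespace Pool.Agent.W515.BVSIX

open Finset

variable {V : Type} [DecidableEq V]

theorem inter_eq {e f : Finset V} (h : (e ∩ f).card ≤ 1) {p : V} (h1 : p ∈ e) (h2 : p ∈ f) :
    e ∩ f = {p} := by
  refine (Finset.eq_of_subset_of_card_le ?_ ?_).symm
  · rw [Finset.singleton_subset_iff]
    exact Finset.mem_inter.2 ⟨h1, h2⟩
  · rwa [Finset.card_singleton]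

theorem no_common {e f g S : Finset V} (he : e.card = 3) (hf : f.card = 3) (hg : g.card = 3)
    (hS : S.card ≤ 6) (h1 : e ⊆ S) (h2 : f ⊆ S) (h3 : g ⊆ S) (hef : (e ∩ f).card ≤ 1)
    (heg : (e ∩ g).card ≤ 1) (hfg : (f ∩ g).card ≤ 1) {p : V} (p1 : p ∈ e) (p2 : p ∈ f)
    (p3 : p ∈ g) : False := by
  have e1 := inter_eq hef p1 p2
  have e2 := inter_eq heg p1 p3
  have e3 := inter_eq hfg p2 p3
  have c1 := Finset.card_union_add_card_inter e f
  rw [e1, he, hf, Finset.card_singleton] at c1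
  have c2 := Finset.card_union_add_card_inter (e ∪ f) g
  have e4 : (e ∪ f) ∩ g = {p} := by
    rw [Finset.union_inter_distrib_right, e2, e3, Finset.union_self]
  rw [e4, hg, Finset.card_singleton] at c2
  have c3 : ((e ∪ f) ∪ g).card ≤ S.card :=
    Finset.card_le_card (Finset.union_subset (Finset.union_subset h1 h2) h3)
  omega

theorem meet {e f g S : Finset V} (he : e.card = 3) (hf : f.card = 3) (hg : g.card = 3)
    (hS : S.card ≤ 6) (h1 : e ⊆ S) (h2 : f ⊆ S) (h3 : g ⊆ S)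
    (heg : (e ∩ g).card ≤ 1) (hfg : (f ∩ g).card ≤ 1) : ∃ p, p ∈ e ∧ p ∈ f := by
  by_contra hcon
  have h4 : e ∩ f = ∅ := by
    rw [Finset.eq_empty_iff_forall_notMem]
    intro p hp
    exact hcon ⟨p, Finset.mem_inter.1 hp⟩
  have c1 := Finset.card_union_add_card_inter e f
  rw [h4, he, hf, Finset.card_empty] at c1
  have c2 := Finset.card_union_add_card_inter (e ∪ f) g
  have c3 : ((e ∪ f) ∩ g).card ≤ 2 := by
    rw [Finset.union_inter_distrib_right]
    exact (Finset.card_union_le _ _).trans (by omega)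
  have c4 : ((e ∪ f) ∪ g).card ≤ S.card :=
    Finset.card_le_card (Finset.union_subset (Finset.union_subset h1 h2) h3)
  omega

theorem t_SIX : Pool.Agent.W842.BV.S_SIX := by
  intro V _ H h3 hlin htri S hS
  by_contra hcon
  rw [not_lt] at hcon
  obtain ⟨e, he, f, hf, g, hg, hef, heg, hfg⟩ := Finset.two_lt_card.1 (by omega :
    2 < (H.filter (fun e => e ⊆ S)).card)
  rw [Finset.mem_filter] at he hf hg
  have k1 := hlin e he.1 f hf.1 hef
  have k2 := hlin e he.1 g hg.1 heg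
  have k3 := hlin f hf.1 g hg.1 hfg
  have k1' : (f ∩ e).card ≤ 1 := by rwa [Finset.inter_comm]
  have k2' : (g ∩ e).card ≤ 1 := by rwa [Finset.inter_comm]
  have k3' : (g ∩ f).card ≤ 1 := by rwa [Finset.inter_comm]
  have c1 := h3 e he.1
  have c2 := h3 f hf.1
  have c3 := h3 g hg.1
  obtain ⟨x, x1, x2⟩ := meet c1 c2 c3 hS he.2 hf.2 hg.2 k2 k3
  obtain ⟨y, y1, y2⟩ := meet c2 c3 c1 hS hf.2 hg.2 he.2 k1' k2'
  obtain ⟨z, z1, z2⟩ := meet c1 c3 c2 hS he.2 hg.2 hf.2 k1 k3'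
  have key : ∀ p : V, p ∈ e → p ∈ f → p ∈ g → False := fun p p1 p2 p3 =>
    no_common c1 c2 c3 hS he.2 hf.2 hg.2 k1 k2 k3 p1 p2 p3
  refine htri e he.1 f hf.1 g hg.1 hef hfg heg x y z x1 x2 y1 y2 z1 z2 ?_ ?_ ?_
  · rintro rfl
    exact key x x1 x2 y2
  · rintro rfl
    exact key y z1 y1 y2
  · rintro rfl
    exact key x x1 x2 z2

end Pool.Agent.W515.BVSIX
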