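import Mathlib

set_option autoImplicit false

namespace Pool.Agent.W515.LD

open Polynomial Finset

variable {p : ℕ} [Fact p.Prime] {K : Type*} [Field K] [Algebra (ZMod p) K]

lemma cast_p (K : Type*) [Field K] [Algebra (ZMod p) K] : (p : K) = 0 := by
  have : CharP K p := charP_of_injective_algebraMap (algebraMap (ZMod p) K).injective p
  exact CharP.cast_eq_zero K p

lemma prod_X_sub_C_zmod : ∏ i : ZMod p, (X - C i : (ZMod p)[X]) = X ^ p - X := by
  have h1 : (X ^ p - X : (ZMod p)[X]).Monic :=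
    monic_X_pow_sub (by rw [degree_X]; exact_mod_cast (Fact.out : p.Prime).one_lt)
  have h2 : (X ^ p - X : (ZMod p)[X]).roots = Finset.univ.val := by
    have := FiniteField.roots_X_pow_card_sub_X (ZMod p)
    rwa [ZMod.card] at this
  have h3 := Polynomial.prod_multiset_X_sub_C_of_monic_of_roots_card_eq h1 (by
    rw [h2, FiniteField.X_pow_card_sub_X_natDegree_eq _ (Fact.out : p.Prime).one_lt]
    simp [ZMod.card])
  rw [h2] at h3
  rw [← h3]
  rfl

lemma prod_sub_one (y : K) : ∏ i : ZMod p, (y - algebraMap (ZMod p) K i) = y ^ p - y := by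
  have h := congrArg (Polynomial.aeval y) (prod_X_sub_C_zmod (p := p))
  simpa [map_prod] using h

/-- `∏ (x - iℓ) = x^p - ℓ^{p-1} x` -/
lemma prod_sub (x l : K) :
    ∏ i : ZMod p, (x - algebraMap (ZMod p) K i * l) = x ^ p - l ^ (p - 1) * x := by
  have hp2 := (Fact.out : p.Prime).two_le
  by_cases hl : l = 0
  · subst hl
    simp [ZMod.card, zero_pow (show p - 1 ≠ 0 by omega)]
  · have h := prod_sub_one (p := p) (x / l)
    have h2 : ∀ i : ZMod p, x - algebraMap (ZMod p) K i * l =
        l * (x / l - algebraMap (ZMod p) K i) := by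
      intro i
      field_simp
    rw [Finset.prod_congr rfl fun i _ => h2 i, Finset.prod_mul_distrib, h]
    simp only [Finset.prod_const, Finset.card_univ, ZMod.card]
    rw [mul_sub, div_pow, mul_div_cancel₀ _ (pow_ne_zero _ hl)]
    congr 1
    rw [← pow_sub_one_mul (show p ≠ 0 by omega) l]
    field_simp

/-- `∑ 1/(x - iℓ) = -ℓ^{p-1}/(x^p - ℓ^{p-1} x)` -/
lemma sum_inv (x l : K) (hx : ∀ i : ZMod p, x - algebraMap (ZMod p) K i * l ≠ 0) :
    ∑ i : ZMod p, (x - algebraMap (ZMod p) K i * l)⁻¹ =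
      -l ^ (p - 1) / (x ^ p - l ^ (p - 1) * x) := by
  classical
  have hp2 := (Fact.out : p.Prime).two_le
  have h1 : ∏ i : ZMod p, (X - C (algebraMap (ZMod p) K i * l) : K[X]) =
      X ^ p - C (l ^ (p - 1)) * X := by
    -- check after embedding in the fraction field
    have h := prod_sub (p := p) (K := RatFunc K) (algebraMap K[X] (RatFunc K) X)
      (algebraMap K[X] (RatFunc K) (C l))
    apply FaithfulSMul.algebraMap_injective K[X] (RatFunc K)
    rw [map_prod, map_sub, map_mul, map_pow, C_pow, map_pow, ← h]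
    apply Finset.prod_congr rfl
    intro i _
    rw [map_sub, C_mul, map_mul]
    congr 2
  have h2 := congrArg (fun P => (derivative P).eval x) h1
  simp only [derivative_prod_finset, derivative_sub, derivative_X, derivative_C, derivative_mul,
    derivative_X_pow, eval_finsetSum, eval_mul, eval_prod, eval_sub, eval_X, eval_C,
    sub_zero, mul_one, zero_mul, zero_add, eval_pow, cast_p (p := p) K] at h2
  have h3 : ∑ i : ZMod p, (x - algebraMap (ZMod p) K i * l)⁻¹ =
      (∑ i : ZMod p, ∏ j ∈ univ.erase i, (x - algebraMap (ZMod p) K j * l)) /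
        ∏ j : ZMod p, (x - algebraMap (ZMod p) K j * l) := by
    rw [Finset.sum_div]
    apply Finset.sum_congr rfl
    intro i _
    rw [← Finset.mul_prod_erase univ (fun j => x - algebraMap (ZMod p) K j * l) (mem_univ i)]
    have h4 : ∏ j ∈ univ.erase i, (x - algebraMap (ZMod p) K j * l) ≠ 0 :=
      Finset.prod_ne_zero_iff.2 fun j _ => hx j
    have h5 := hx i
    generalize ∏ j ∈ univ.erase i, (x - algebraMap (ZMod p) K j * l) = A at h4 ⊢
    field_simp
  rw [h3, h2, prod_sub]
  ring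

/-- `∑ j/(u - jt) = -t^{p-2}/(u^{p-1} - t^{p-1})` -/
lemma sum_mul_inv (u t : K) (ht : t ≠ 0)
    (hu : ∀ i : ZMod p, u - algebraMap (ZMod p) K i * t ≠ 0) :
    ∑ j : ZMod p, algebraMap (ZMod p) K j * (u - algebraMap (ZMod p) K j * t)⁻¹ =
      -t ^ (p - 2) / (u ^ (p - 1) - t ^ (p - 1)) := by
  have hp2 := (Fact.out : p.Prime).two_le
  have hu0 : u ≠ 0 := by simpa using hu 0
  have h1 : ∀ j : ZMod p, algebraMap (ZMod p) K j * (u - algebraMap (ZMod p) K j * t)⁻¹ =
      t⁻¹ * (u * (u - algebraMap (ZMod p) K j * t)⁻¹ - 1) := by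
    intro j
    have := hu j
    field_simp
    ring
  rw [Finset.sum_congr rfl fun j _ => h1 j, ← Finset.mul_sum, Finset.sum_sub_distrib,
    ← Finset.mul_sum, sum_inv u t hu]
  simp only [sum_const, card_univ, ZMod.card, nsmul_eq_mul, mul_one]
  have h2 : u ^ p - t ^ (p - 1) * u = u * (u ^ (p - 1) - t ^ (p - 1)) := by
    rw [← pow_sub_one_mul (show p ≠ 0 by omega) u]
    ring
  have h3 : u ^ (p - 1) - t ^ (p - 1) ≠ 0 := by
    intro h
    rw [h, mul_zero, ← prod_sub, Finset.prod_eq_zero_iff] at h2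
    obtain ⟨i, _, hi⟩ := h2
    exact hu i hi
  have h4 : t ^ (p - 1) = t ^ (p - 2) * t := by
    rw [← pow_succ]
    congr 1
    omega
  rw [h2, cast_p (p := p) K]
  have h5 : -t ^ (p - 1) = -(t ^ (p - 2) * t) := by rw [h4]
  rw [h5]
  generalize u ^ (p - 1) - t ^ (p - 1) = B at h3 ⊢
  field_simp
  ring

end Pool.Agent.W515.LD
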