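import Mathlib
import Pool.Agent.W515.LDField

set_option autoImplicit false

namespace Pool.Agent.W515.LD

open Polynomial Finset

variable {p : ℕ} [Fact p.Prime]

section General

variable {R : Type*} [CommRing R] [Algebra (ZMod p) R]

/-- the element `a S + b T` -/
def wd (S T : R) (w : ZMod p × ZMod p) : R :=
  algebraMap (ZMod p) R w.1 * S + algebraMap (ZMod p) R w.2 * T

/-- the linear form with coefficients `h` -/
def lf (h w : ZMod p × ZMod p) : ZMod p := h.1 * w.1 + h.2 * w.2

/-- generator of the kernel of `lf h` -/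
def kr (h : ZMod p × ZMod p) : ZMod p × ZMod p := (h.2, -h.1)

lemma wd_add (S T : R) (v w : ZMod p × ZMod p) : wd S T (v + w) = wd S T v + wd S T w := by
  simp only [wd, Prod.fst_add, Prod.snd_add, map_add]
  ring

lemma wd_smul (S T : R) (c : ZMod p) (w : ZMod p × ZMod p) :
    wd S T (c • w) = algebraMap (ZMod p) R c * wd S T w := by
  simp only [wd, Prod.smul_fst, Prod.smul_snd, smul_eq_mul, map_mul]
  ring

lemma lf_add (h v w : ZMod p × ZMod p) : lf h (v + w) = lf h v + lf h w := by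
  simp only [lf, Prod.fst_add, Prod.snd_add]
  ring

lemma lf_smul (h : ZMod p × ZMod p) (c : ZMod p) (w : ZMod p × ZMod p) :
    lf h (c • w) = c * lf h w := by
  simp only [lf, Prod.smul_fst, Prod.smul_snd, smul_eq_mul]
  ring

lemma lf_kr (h : ZMod p × ZMod p) : lf h (kr h) = 0 := by
  simp only [lf, kr]
  ring

lemma exists_tr (h : ZMod p × ZMod p) (hh : h ≠ 0) : ∃ t, lf h t = 1 := by
  by_cases h1 : h.1 = 0
  · have h2 : h.2 ≠ 0 := by
      intro h2
      exact hh (Prod.ext h1 h2)
    exact ⟨(0, h.2⁻¹), by simp [lf, h2]⟩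
  · exact ⟨(h.1⁻¹, 0), by simp [lf, h1]⟩

lemma bij (h t : ZMod p × ZMod p) (hh : h ≠ 0) (ht : lf h t = 1) :
    Function.Bijective (fun ij : ZMod p × ZMod p => ij.1 • kr h + ij.2 • t) := by
  rw [Fintype.bijective_iff_injective_and_card]
  refine ⟨?_, rfl⟩
  rintro ⟨i, j⟩ ⟨i', j'⟩ he
  simp only at he
  have h1 := congrArg (lf h) he
  simp only [lf_add, lf_smul, lf_kr, ht, mul_zero, zero_add, mul_one] at h1
  subst h1
  have h2 : i • kr h = i' • kr h := add_right_cancel he
  have h3 : (i - i') • kr h = 0 := by rw [sub_smul, h2, sub_self]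
  rcases smul_eq_zero.1 h3 with h4 | h4
  · rw [sub_eq_zero.1 h4]
  · exfalso
    apply hh
    simp only [kr, Prod.mk_eq_zero, neg_eq_zero] at h4
    exact Prod.ext h4.2 h4.1

end General

section Field

variable {K : Type*} [Field K] [Algebra (ZMod p) K]

/-- the additive polynomial with kernel `F_p l` -/
def ad (p : ℕ) (l x : K) : K := x ^ p - l ^ (p - 1) * x

lemma ad_sub_smul (l x t : K) (j : ZMod p) :
    ad p l (x - algebraMap (ZMod p) K j * t) = ad p l x - algebraMap (ZMod p) K j * ad p l t := by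
  have : CharP K p := charP_of_injective_algebraMap (algebraMap (ZMod p) K).injective p
  have h1 : algebraMap (ZMod p) K j ^ p = algebraMap (ZMod p) K j := by
    rw [← map_pow, ZMod.pow_card]
  simp only [ad]
  rw [sub_pow_char, mul_pow, h1]
  ring

lemma prod_inner (l t x : K) (j : ZMod p) :
    ∏ i : ZMod p, (x - algebraMap (ZMod p) K j * t - algebraMap (ZMod p) K i * l) =
      ad p l x - algebraMap (ZMod p) K j * ad p l t := by
  rw [prod_sub, ← ad_sub_smul, ad]

lemma det_eq (S T : K) (h t : ZMod p × ZMod p) (ht : lf h t = 1) :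
    wd S T (kr h) * ad p (wd S T (kr h)) (wd S T t) = S * T ^ p - S ^ p * T := by
  have hp2 := (Fact.out : p.Prime).two_le
  have : CharP K p := charP_of_injective_algebraMap (algebraMap (ZMod p) K).injective p
  have hpow : ∀ w : ZMod p × ZMod p, wd S T w ^ p = wd (S ^ p) (T ^ p) w := by
    intro w
    simp only [wd]
    rw [add_pow_char, mul_pow, mul_pow, ← map_pow, ← map_pow, ZMod.pow_card, ZMod.pow_card]
  have h1 : wd S T (kr h) * ad p (wd S T (kr h)) (wd S T t) =
      wd S T (kr h) * wd S T t ^ p - wd S T (kr h) ^ p * wd S T t := by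
    rw [ad, ← pow_sub_one_mul (show p ≠ 0 by omega) (wd S T (kr h))]
    ring
  have h2 := congrArg (algebraMap (ZMod p) K) ht
  simp only [lf, map_add, map_mul, map_one] at h2
  rw [h1, hpow, hpow]
  simp only [wd, kr, map_neg]
  linear_combination (S * T ^ p - S ^ p * T) * h2

lemma wd_comb (S T V : K) (h t ij : ZMod p × ZMod p) :
    V - wd S T (ij.1 • kr h + ij.2 • t) =
      V - algebraMap (ZMod p) K ij.2 * wd S T t - algebraMap (ZMod p) K ij.1 * wd S T (kr h) := by
  rw [wd_add, wd_smul, wd_smul]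
  ring

lemma lf_comb (h t ij : ZMod p × ZMod p) (ht : lf h t = 1) :
    lf h (ij.1 • kr h + ij.2 • t) = ij.2 := by
  simp only [lf_add, lf_smul, lf_kr, ht, mul_zero, zero_add, mul_one]

lemma ad_sub_ne (S T V : K) (h t : ZMod p × ZMod p)
    (hV : ∀ w : ZMod p × ZMod p, V - wd S T w ≠ 0) (j : ZMod p) :
    ad p (wd S T (kr h)) V - algebraMap (ZMod p) K j * ad p (wd S T (kr h)) (wd S T t) ≠ 0 := by
  rw [← prod_inner]
  apply Finset.prod_ne_zero_iff.2
  intro i _
  rw [← wd_comb S T V h t (i, j)]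
  exact hV _

/-- the product over the complement of the kernel of `lf h` -/
lemma prod_compl (S T V : K) (h t : ZMod p × ZMod p) (hh : h ≠ 0) (ht : lf h t = 1)
    (hV : ∀ w : ZMod p × ZMod p, V - wd S T w ≠ 0) :
    ∏ w : ZMod p × ZMod p with lf h w ≠ 0, (V - wd S T w) =
      ad p (wd S T (kr h)) V ^ (p - 1) - ad p (wd S T (kr h)) (wd S T t) ^ (p - 1) := by
  classical
  have hp2 := (Fact.out : p.Prime).two_le
  have hu : ad p (wd S T (kr h)) V ≠ 0 := by
    simpa using ad_sub_ne S T V h t hV 0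
  have h1 : ∏ w : ZMod p × ZMod p with lf h w ≠ 0, (V - wd S T w) =
      ∏ ij : ZMod p × ZMod p, if ij.2 ≠ 0 then (V - algebraMap (ZMod p) K ij.2 * wd S T t -
        algebraMap (ZMod p) K ij.1 * wd S T (kr h)) else 1 := by
    rw [Finset.prod_filter]
    rw [← (bij h t hh ht).prod_comp fun w => if lf h w ≠ 0 then (V - wd S T w) else 1]
    apply Finset.prod_congr rfl
    intro ij _
    simp only [lf_comb h t ij ht, wd_comb]
  have h2 : ∏ j : ZMod p, (ad p (wd S T (kr h)) V -
      algebraMap (ZMod p) K j * ad p (wd S T (kr h)) (wd S T t)) =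
      ad p (wd S T (kr h)) V * ∏ j ∈ univ.erase (0 : ZMod p), (ad p (wd S T (kr h)) V -
        algebraMap (ZMod p) K j * ad p (wd S T (kr h)) (wd S T t)) := by
    rw [← Finset.mul_prod_erase univ _ (mem_univ (0 : ZMod p))]
    simp
  rw [prod_sub] at h2
  have h3 : ad p (wd S T (kr h)) V * (ad p (wd S T (kr h)) V ^ (p - 1) -
      ad p (wd S T (kr h)) (wd S T t) ^ (p - 1)) =
      ad p (wd S T (kr h)) V * ∏ j ∈ univ.erase (0 : ZMod p), (ad p (wd S T (kr h)) V -
        algebraMap (ZMod p) K j * ad p (wd S T (kr h)) (wd S T t)) := by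
    rw [← h2, ← pow_sub_one_mul (show p ≠ 0 by omega) (ad p (wd S T (kr h)) V)]
    ring
  have h4 := mul_left_cancel₀ hu h3
  rw [h1, h4, Fintype.prod_prod_type, Finset.prod_comm]
  rw [← Finset.mul_prod_erase univ _ (mem_univ (0 : ZMod p))]
  simp only [ne_eq, not_true_eq_false, if_false, Finset.prod_const_one, one_mul]
  apply Finset.prod_congr rfl
  intro j hj
  have hj0 : j ≠ 0 := Finset.ne_of_mem_erase hj
  simp only [hj0, not_false_eq_true, if_true]
  exact prod_inner _ _ _ _

/-- the main identity -/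
lemma main_sum (S T V : K) (h : ZMod p × ZMod p) (hh : h ≠ 0)
    (hD : S * T ^ p - S ^ p * T ≠ 0)
    (hV : ∀ w : ZMod p × ZMod p, V - wd S T w ≠ 0) :
    ∑ w : ZMod p × ZMod p, algebraMap (ZMod p) K (lf h w) * (V - wd S T w)⁻¹ =
      wd S T (kr h) * (S * T ^ p - S ^ p * T) ^ (p - 2) /
        ∏ w : ZMod p × ZMod p with lf h w ≠ 0, (V - wd S T w) := by
  classical
  have hp2 := (Fact.out : p.Prime).two_le
  obtain ⟨t, ht⟩ := exists_tr h hh
  have hdet := det_eq S T h t ht
  rw [prod_compl S T V h t hh ht hV]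
  rw [← (bij h t hh ht).sum_comp]
  simp only [lf_comb h t _ ht, wd_comb]
  rw [Fintype.sum_prod_type, Finset.sum_comm]
  have h1 : ∀ j : ZMod p, ∑ i : ZMod p, algebraMap (ZMod p) K j *
      (V - algebraMap (ZMod p) K j * wd S T t - algebraMap (ZMod p) K i * wd S T (kr h))⁻¹ =
      -(wd S T (kr h)) ^ (p - 1) * (algebraMap (ZMod p) K j * (ad p (wd S T (kr h)) V -
        algebraMap (ZMod p) K j * ad p (wd S T (kr h)) (wd S T t))⁻¹) := by
    intro j
    rw [← Finset.mul_sum, sum_inv _ _ (fun i => by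
      rw [← wd_comb S T V h t (i, j)]
      exact hV _)]
    have h2 := ad_sub_smul (p := p) (wd S T (kr h)) V (wd S T t) j
    rw [ad] at h2
    rw [h2]
    ring
  simp only
  rw [Finset.sum_congr rfl fun j _ => h1 j, ← Finset.mul_sum]
  have ht0 : ad p (wd S T (kr h)) (wd S T t) ≠ 0 := by
    intro h0
    rw [h0, mul_zero] at hdet
    exact hD hdet.symm
  rw [sum_mul_inv _ _ ht0 (fun j => ad_sub_ne S T V h t hV j)]
  rw [← hdet, mul_pow]
  have h4 : wd S T (kr h) ^ (p - 1) = wd S T (kr h) ^ (p - 2) * wd S T (kr h) := by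
    rw [← pow_succ]
    congr 1
    omega
  rw [show -(wd S T (kr h)) ^ (p - 1) = -(wd S T (kr h) ^ (p - 2) * wd S T (kr h)) by rw [h4]]
  ring

end Field

end Pool.Agent.W515.LD
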