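import Mathlib
import Pool.Agent.W515.LDMain

set_option autoImplicit false

namespace Pool.Agent.W515.LD

open Polynomial Finset

variable {p : ℕ} [Fact p.Prime] {k : Type*} [Field k] [Algebra (ZMod p) k]

section Defs

variable (p k)

/-- `S = z^p` -/
noncomputable def SS : k[X] := X ^ p

variable {k}

/-- `T = τ z^p + 1` -/
noncomputable def TT (τ : k) : k[X] := C τ * X ^ p + 1

/-- the product of the `T - cS` -/
noncomputable def NN (τ : k) : k[X] :=
  ∏ c : ZMod p, (TT p τ - algebraMap (ZMod p) k[X] c * SS p k)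

/-- `V = S + N + S N (z + z^{pr})` -/
noncomputable def VV (r : ℕ) (τ : k) : k[X] :=
  SS p k + NN p τ + SS p k * NN p τ * (X + X ^ (p * r))

end Defs

/-- the lines of the plane -/
def line : Option (ZMod p) → ZMod p × ZMod p
  | none => (1, 0)
  | some c => (-c, 1)

/-- a point outside of the line -/
def pt : Option (ZMod p) → ZMod p × ZMod p
  | none => (0, 1)
  | some _ => (1, 0)

lemma NN_eq (τ : k) : NN p τ = TT p τ ^ p - SS p k ^ (p - 1) * TT p τ := by
  apply FaithfulSMul.algebraMap_injective k[X] (RatFunc k)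
  have h := prod_sub (p := p) (K := RatFunc k) (algebraMap k[X] (RatFunc k) (TT p τ))
      (algebraMap k[X] (RatFunc k) (SS p k))
  rw [map_sub, map_mul, map_pow, map_pow, ← h, NN, map_prod]
  apply Finset.prod_congr rfl
  intro i _
  rw [map_sub, map_mul, ← IsScalarTower.algebraMap_apply]

lemma cast_p_poly : (p : k[X]) = 0 := by
  have : (p : k[X]) = C (p : k) := by simp
  rw [this, cast_p (p := p) k, C_0]

lemma der_SS : derivative (SS p k) = 0 := by
  rw [SS, derivative_X_pow, cast_p (p := p) k, C_0, zero_mul]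

lemma der_TT (τ : k) : derivative (TT p τ) = 0 := by
  rw [TT, derivative_add, derivative_C_mul, derivative_X_pow, cast_p (p := p) k]
  simp

lemma der_pow (P : k[X]) (h : derivative P = 0) (n : ℕ) : derivative (P ^ n) = 0 := by
  rw [derivative_pow, h, mul_zero]

lemma der_NN (τ : k) : derivative (NN p τ) = 0 := by
  rw [NN_eq, derivative_sub, derivative_mul, der_pow _ (der_TT τ), der_pow _ der_SS, der_TT]
  simp

lemma der_wd (τ : k) (w : ZMod p × ZMod p) : derivative (wd (SS p k) (TT p τ) w) = 0 := by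
  rw [wd, derivative_add, derivative_mul, derivative_mul, der_SS, der_TT]
  have h : ∀ a : ZMod p, derivative (algebraMap (ZMod p) k[X] a) = 0 := by
    intro a
    rw [IsScalarTower.algebraMap_apply (ZMod p) k k[X]]
    exact derivative_C
  rw [h, h]
  simp

lemma der_VV (r : ℕ) (τ : k) : derivative (VV p r τ) = SS p k * NN p τ := by
  rw [VV, derivative_add, derivative_add, derivative_mul, derivative_mul, der_SS, der_NN,
    derivative_add, derivative_X, derivative_X_pow, Nat.cast_mul, cast_p (p := p) k]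
  simp

lemma wd_eq (τ : k) (w : ZMod p × ZMod p) : wd (SS p k) (TT p τ) w =
    C (algebraMap (ZMod p) k w.1 + algebraMap (ZMod p) k w.2 * τ) * X ^ p +
      C (algebraMap (ZMod p) k w.2) := by
  rw [wd, SS, TT, IsScalarTower.algebraMap_apply (ZMod p) k k[X],
    IsScalarTower.algebraMap_apply (ZMod p) k k[X]]
  simp only [algebraMap_eq, C_add, C_mul]
  ring

lemma lead_ne (τ : k) (hτ : ∀ c : ZMod p, τ ≠ algebraMap (ZMod p) k c) (w : ZMod p × ZMod p)
    (hw : w ≠ 0) : algebraMap (ZMod p) k w.1 + algebraMap (ZMod p) k w.2 * τ ≠ 0 := by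
  intro h
  by_cases h2 : w.2 = 0
  · rw [h2, map_zero, zero_mul, add_zero] at h
    have h1 : w.1 = 0 := (algebraMap (ZMod p) k).injective (by rw [h, map_zero])
    exact hw (Prod.ext h1 h2)
  · have h3 : algebraMap (ZMod p) k w.2 ≠ 0 := by
      intro h3
      exact h2 ((algebraMap (ZMod p) k).injective (by rw [h3, map_zero]))
    apply hτ (-w.1 / w.2)
    rw [map_div₀, map_neg]
    field_simp
    linear_combination h

lemma natDegree_wd (τ : k) (hτ : ∀ c : ZMod p, τ ≠ algebraMap (ZMod p) k c)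
    (w : ZMod p × ZMod p) (hw : w ≠ 0) : (wd (SS p k) (TT p τ) w).natDegree = p := by
  rw [wd_eq, natDegree_add_C, natDegree_C_mul_X_pow _ _ (lead_ne τ hτ w hw)]

lemma natDegree_wd_le (τ : k) (w : ZMod p × ZMod p) :
    (wd (SS p k) (TT p τ) w).natDegree ≤ p := by
  rw [wd_eq, natDegree_add_C]
  exact natDegree_C_mul_X_pow_le _ _

lemma wd_ne_zero (τ : k) (hτ : ∀ c : ZMod p, τ ≠ algebraMap (ZMod p) k c)
    (w : ZMod p × ZMod p) (hw : w ≠ 0) : wd (SS p k) (TT p τ) w ≠ 0 := by
  intro h
  have h1 := natDegree_wd τ hτ w hw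
  rw [h, natDegree_zero] at h1
  exact (Fact.out : p.Prime).ne_zero h1.symm

lemma line_ne_zero (o : Option (ZMod p)) : line o ≠ 0 := by
  rcases o with _ | c
  · simp [line]
  · simp [line]

lemma wd_line_none (τ : k) :
    wd (SS p k) (TT p τ) (line (none : Option (ZMod p))) = SS p k := by
  simp [line, wd]

lemma wd_line_some (τ : k) (c : ZMod p) : wd (SS p k) (TT p τ) (line (some c)) =
    TT p τ - algebraMap (ZMod p) k[X] c * SS p k := by
  simp [line, wd]
  ring

lemma prod_lines (τ : k) : ∏ o : Option (ZMod p), wd (SS p k) (TT p τ) (line o) =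
    SS p k * NN p τ := by
  rw [Fintype.prod_option, wd_line_none, NN]
  simp only [wd_line_some]

lemma natDegree_NN (τ : k) (hτ : ∀ c : ZMod p, τ ≠ algebraMap (ZMod p) k c) :
    (NN p τ).natDegree = p * p := by
  rw [NN, natDegree_prod]
  · have h1 : ∀ c : ZMod p, (TT p τ - algebraMap (ZMod p) k[X] c * SS p k).natDegree = p := by
      intro c
      rw [← wd_line_some]
      exact natDegree_wd τ hτ _ (line_ne_zero _)
    rw [Finset.sum_congr rfl fun c _ => h1 c, sum_const, card_univ, ZMod.card, smul_eq_mul]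
  · intro c _
    rw [← wd_line_some]
    exact wd_ne_zero τ hτ _ (line_ne_zero _)

lemma SN_ne_zero (τ : k) (hτ : ∀ c : ZMod p, τ ≠ algebraMap (ZMod p) k c) :
    SS p k * NN p τ ≠ 0 := by
  rw [← prod_lines]
  exact Finset.prod_ne_zero_iff.2 fun o _ => wd_ne_zero τ hτ _ (line_ne_zero _)

lemma natDegree_SN (τ : k) (hτ : ∀ c : ZMod p, τ ≠ algebraMap (ZMod p) k c) :
    (SS p k * NN p τ).natDegree = p + p * p := by
  have h := SN_ne_zero τ hτ
  rw [natDegree_mul (left_ne_zero_of_mul h) (right_ne_zero_of_mul h), natDegree_NN τ hτ, SS,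
    natDegree_X_pow]

lemma natDegree_Y {r : ℕ} (hr : 0 < r) : (X + X ^ (p * r) : k[X]).natDegree = p * r := by
  have hp2 := (Fact.out : p.Prime).two_le
  have h1 : 1 < p * r := by nlinarith
  rw [natDegree_add_eq_right_of_natDegree_lt]
  · exact natDegree_X_pow _
  · rw [natDegree_X_pow, natDegree_X]
    exact h1

lemma natDegree_VV {r : ℕ} (hr : 0 < r) (τ : k)
    (hτ : ∀ c : ZMod p, τ ≠ algebraMap (ZMod p) k c) :
    (VV p r τ).natDegree = p + p * p + p * r := by
  have hp2 := (Fact.out : p.Prime).two_le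
  have h1 : (SS p k * NN p τ * (X + X ^ (p * r))).natDegree = p + p * p + p * r := by
    rw [natDegree_mul (SN_ne_zero τ hτ), natDegree_SN τ hτ, natDegree_Y hr]
    intro h
    have h2 := natDegree_Y (p := p) (k := k) hr
    rw [h, natDegree_zero] at h2
    have : 0 < p * r := by positivity
    omega
  have h2 : (SS p k + NN p τ).natDegree ≤ p * p := by
    apply natDegree_add_le_of_degree_le
    · rw [SS, natDegree_X_pow]
      nlinarith
    · rw [natDegree_NN τ hτ]
  rw [VV, natDegree_add_eq_right_of_natDegree_lt, h1]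
  rw [h1]
  have : 0 < p * r := by positivity
  omega

lemma natDegree_V_sub {r : ℕ} (hr : 0 < r) (τ : k)
    (hτ : ∀ c : ZMod p, τ ≠ algebraMap (ZMod p) k c) (w : ZMod p × ZMod p) :
    (VV p r τ - wd (SS p k) (TT p τ) w).natDegree = p + p * p + p * r := by
  have hp2 := (Fact.out : p.Prime).two_le
  rw [natDegree_sub_eq_left_of_natDegree_lt, natDegree_VV hr τ hτ]
  have h1 := natDegree_wd_le (p := p) τ w
  rw [natDegree_VV hr τ hτ]
  have : 0 < p * r := by positivity
  nlinarith

lemma V_sub_ne_zero {r : ℕ} (hr : 0 < r) (τ : k)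
    (hτ : ∀ c : ZMod p, τ ≠ algebraMap (ZMod p) k c) (w : ZMod p × ZMod p) :
    VV p r τ - wd (SS p k) (TT p τ) w ≠ 0 := by
  have hp2 := (Fact.out : p.Prime).two_le
  intro h
  have h1 := natDegree_V_sub hr τ hτ w
  rw [h, natDegree_zero] at h1
  omega

/-! ### divisibility -/

lemma dvd_NN_sub_one (τ : k) : SS p k ∣ NN p τ - 1 := by
  rw [← Ideal.mem_span_singleton, ← Ideal.Quotient.eq_zero_iff_mem, map_sub, map_one, NN,
    map_prod, sub_eq_zero]
  apply Finset.prod_eq_one
  intro c _
  have h1 : (Ideal.Quotient.mk (Ideal.span {SS p k})) (SS p k) = 0 := by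
    rw [Ideal.Quotient.eq_zero_iff_mem]
    exact Ideal.mem_span_singleton_self _
  have h2 : TT p τ - algebraMap (ZMod p) k[X] c * SS p k =
      (C τ - algebraMap (ZMod p) k[X] c) * SS p k + 1 := by
    rw [TT, SS]
    ring
  rw [h2, map_add, map_mul, h1, mul_zero, zero_add, map_one]

lemma line_dvd (r : ℕ) (τ : k) (o : Option (ZMod p)) :
    wd (SS p k) (TT p τ) (line o) ∣ VV p r τ - wd (SS p k) (TT p τ) (pt o) := by
  rcases o with _ | c
  · rw [wd_line_none]
    have h1 : VV p r τ - wd (SS p k) (TT p τ) (pt (none : Option (ZMod p))) =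
        SS p k * (1 + NN p τ * (X + X ^ (p * r)) - C τ) + (NN p τ - 1) := by
      simp only [pt, wd, map_zero, zero_mul, map_one, one_mul, zero_add, VV, TT, SS]
      ring
    rw [h1]
    exact dvd_add (dvd_mul_right _ _) (dvd_NN_sub_one τ)
  · rw [wd_line_some]
    have h1 : VV p r τ - wd (SS p k) (TT p τ) (pt (some c)) =
        NN p τ * (1 + SS p k * (X + X ^ (p * r))) := by
      simp only [pt, wd, map_zero, zero_mul, map_one, one_mul, add_zero, VV]
      ring
    rw [h1]
    exact Dvd.dvd.mul_right (Finset.dvd_prod_of_mem _ (mem_univ c)) _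

lemma line_dvd_smul (r : ℕ) (τ : k) (o : Option (ZMod p)) (j : ZMod p) :
    wd (SS p k) (TT p τ) (line o) ∣ VV p r τ - wd (SS p k) (TT p τ) (pt o + j • line o) := by
  rw [wd_add, wd_smul, ← sub_sub]
  exact dvd_sub (line_dvd r τ o) (dvd_mul_left _ _)

lemma pt_ne {h : ZMod p × ZMod p} (hh : h ≠ 0) (o : Option (ZMod p)) (h0 : lf h (line o) = 0) :
    lf h (pt o) ≠ 0 := by
  intro h1
  apply hh
  rcases o with _ | c
  · simp only [line, pt, lf, mul_one, mul_zero, add_zero, zero_add] at h0 h1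
    exact Prod.ext h0 h1
  · simp only [line, pt, lf, mul_one, mul_zero, add_zero] at h0 h1
    rw [h1, zero_mul, zero_add] at h0
    exact Prod.ext h1 h0

open Classical in
/-- the exponent of a line -/
noncomputable def ex (h : ZMod p × ZMod p) (o : Option (ZMod p)) : ℕ :=
  p - 1 + if lf h (line o) = 0 then 1 else 0

lemma ex_le {h : ZMod p × ZMod p} (hh : h ≠ 0) (o : Option (ZMod p)) :
    ex h o ≤ (univ.filter fun j : ZMod p => lf h (pt o + j • line o) ≠ 0).card := by
  classical
  have hp2 := (Fact.out : p.Prime).two_le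
  unfold ex
  by_cases h0 : lf h (line o) = 0
  · rw [if_pos h0]
    have h1 : (univ.filter fun j : ZMod p => lf h (pt o + j • line o) ≠ 0) = univ := by
      rw [Finset.filter_eq_self]
      intro j _
      rw [lf_add, lf_smul, h0, mul_zero, add_zero]
      exact pt_ne hh o h0
    rw [h1, card_univ, ZMod.card]
    omega
  · rw [if_neg h0, add_zero]
    have h1 : univ.erase (-lf h (pt o) / lf h (line o)) ⊆
        (univ.filter fun j : ZMod p => lf h (pt o + j • line o) ≠ 0) := by
      intro j hj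
      rw [mem_filter]
      refine ⟨mem_univ _, ?_⟩
      intro h2
      apply Finset.ne_of_mem_erase hj
      rw [lf_add, lf_smul] at h2
      field_simp
      linear_combination h2
    have h2 := Finset.card_le_card h1
    rw [Finset.card_erase_of_mem (mem_univ _), card_univ, ZMod.card] at h2
    exact h2

lemma line_pow_dvd (r : ℕ) (τ : k) {h : ZMod p × ZMod p} (hh : h ≠ 0) (o : Option (ZMod p)) :
    wd (SS p k) (TT p τ) (line o) ^ ex h o ∣
      ∏ w : ZMod p × ZMod p with lf h w ≠ 0, (VV p r τ - wd (SS p k) (TT p τ) w) := by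
  classical
  refine (pow_dvd_pow _ (ex_le hh o)).trans ?_
  set J := univ.filter fun j : ZMod p => lf h (pt o + j • line o) ≠ 0 with hJ
  have hinj : Function.Injective fun j : ZMod p => pt o + j • line o := by
    intro i j hij
    have h1 : i • line o = j • line o := add_left_cancel hij
    have h2 : (i - j) • line o = 0 := by rw [sub_smul, h1, sub_self]
    rcases smul_eq_zero.1 h2 with h3 | h3
    · exact sub_eq_zero.1 h3
    · exact absurd h3 (line_ne_zero o)
  have h1 : wd (SS p k) (TT p τ) (line o) ^ J.card ∣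
      ∏ j ∈ J, (VV p r τ - wd (SS p k) (TT p τ) (pt o + j • line o)) := by
    rw [← Finset.prod_const]
    exact Finset.prod_dvd_prod_of_dvd _ _ fun j _ => line_dvd_smul r τ o j
  refine h1.trans ?_
  rw [← Finset.prod_image (f := fun w => VV p r τ - wd (SS p k) (TT p τ) w)
    (g := fun j => pt o + j • line o) (fun i _ j _ hij => hinj hij)]
  apply Finset.prod_dvd_prod_of_subset
  intro w hw
  rw [mem_image] at hw
  obtain ⟨j, hj, rfl⟩ := hw
  rw [hJ, mem_filter] at hj
  rw [mem_filter]
  exact ⟨mem_univ _, hj.2⟩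

lemma coprime_lines (τ : k) (o o' : Option (ZMod p)) (ho : o ≠ o') :
    IsCoprime (wd (SS p k) (TT p τ) (line o)) (wd (SS p k) (TT p τ) (line o')) := by
  have h1 : ∀ c : ZMod p, TT p τ - algebraMap (ZMod p) k[X] c * SS p k =
      C (τ - algebraMap (ZMod p) k c) * SS p k + 1 := by
    intro c
    rw [TT, SS, IsScalarTower.algebraMap_apply (ZMod p) k k[X], algebraMap_eq, C_sub]
    ring
  have h2 : ∀ c : ZMod p, IsCoprime (SS p k) (TT p τ - algebraMap (ZMod p) k[X] c * SS p k) := by
    intro c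
    refine ⟨-C (τ - algebraMap (ZMod p) k c), 1, ?_⟩
    rw [h1]
    ring
  rcases o with _ | c <;> rcases o' with _ | c'
  · exact absurd rfl ho
  · rw [wd_line_none, wd_line_some]
    exact h2 c'
  · rw [wd_line_none, wd_line_some]
    exact (h2 c).symm
  · have hcc : c ≠ c' := fun h => ho (by rw [h])
    rw [wd_line_some, wd_line_some, h1, h1]
    set α := τ - algebraMap (ZMod p) k c with hα
    set β := τ - algebraMap (ZMod p) k c' with hβ
    have hne : β - α ≠ 0 := by
      rw [hα, hβ]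
      intro h
      apply hcc
      apply (algebraMap (ZMod p) k).injective
      linear_combination h
    refine ⟨C (β / (β - α)), C (-α / (β - α)), ?_⟩
    have h3 : C (β / (β - α)) * (C α * SS p k + 1) + C (-α / (β - α)) * (C β * SS p k + 1) =
        C (β / (β - α) * α + -α / (β - α) * β) * SS p k + C (β / (β - α) + -α / (β - α)) := by
      simp only [C_add, C_mul]
      ring
    rw [h3]
    have h4 : β / (β - α) * α + -α / (β - α) * β = 0 := by
      field_simp
      ring
    have h5 : β / (β - α) + -α / (β - α) = 1 := by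
      field_simp
      ring
    rw [h4, h5, C_0, C_1, zero_mul, zero_add]

lemma exists_line (h : ZMod p × ZMod p) (hh : h ≠ 0) : ∃ (o : Option (ZMod p)) (a : ZMod p),
    a ≠ 0 ∧ kr h = a • line o ∧ lf h (line o) = 0 := by
  by_cases h1 : h.1 = 0
  · refine ⟨none, h.2, ?_, ?_, ?_⟩
    · intro h2
      exact hh (Prod.ext h1 h2)
    · simp [kr, line, h1]
    · simp [lf, line, h1]
  · refine ⟨some (h.2 / h.1), -h.1, neg_ne_zero.2 h1, ?_, ?_⟩
    · simp only [kr, line, Prod.smul_mk, smul_eq_mul, mul_one, Prod.mk.injEq, and_true]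
      field_simp
    · simp only [lf, line]
      field_simp
      ring

lemma total_dvd (r : ℕ) (τ : k) (h : ZMod p × ZMod p) (hh : h ≠ 0) :
    (SS p k * NN p τ) ^ (p - 1) * wd (SS p k) (TT p τ) (kr h) ∣
      ∏ w : ZMod p × ZMod p with lf h w ≠ 0, (VV p r τ - wd (SS p k) (TT p τ) w) := by
  classical
  have h1 : ∏ o : Option (ZMod p), wd (SS p k) (TT p τ) (line o) ^ ex h o ∣
      ∏ w : ZMod p × ZMod p with lf h w ≠ 0, (VV p r τ - wd (SS p k) (TT p τ) w) := by
    apply Finset.prod_dvd_of_coprime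
    · intro o _ o' _ hoo
      exact (coprime_lines τ o o' hoo).pow
    · intro o _
      exact line_pow_dvd r τ hh o
  refine Dvd.dvd.trans ?_ h1
  simp only [ex, pow_add]
  rw [Finset.prod_mul_distrib, Finset.prod_pow, prod_lines]
  apply mul_dvd_mul_left
  obtain ⟨o, a, ha, hk, hl⟩ := exists_line h hh
  refine Dvd.dvd.trans ?_ (Finset.dvd_prod_of_mem _ (mem_univ o))
  rw [if_pos hl, pow_one, hk, wd_smul]
  have hu : IsUnit (algebraMap (ZMod p) k[X] a) := (isUnit_iff_ne_zero.2 ha).map _
  exact (hu.mul_left_dvd).2 dvd_rfl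

lemma card_compl (h : ZMod p × ZMod p) (hh : h ≠ 0) :
    (univ.filter fun w : ZMod p × ZMod p => lf h w ≠ 0).card = p * (p - 1) := by
  classical
  obtain ⟨t, ht⟩ := exists_tr h hh
  have hb := bij h t hh ht
  have h1 : (univ.filter fun w : ZMod p × ZMod p => lf h w ≠ 0) =
      (univ ×ˢ (univ.erase (0 : ZMod p))).image
        (fun ij : ZMod p × ZMod p => ij.1 • kr h + ij.2 • t) := by
    ext w
    rw [mem_filter, mem_image]
    constructor
    · rintro ⟨-, hw⟩
      obtain ⟨ij, rfl⟩ := hb.2 w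
      refine ⟨ij, ?_, rfl⟩
      rw [mem_product]
      refine ⟨mem_univ _, Finset.mem_erase.2 ⟨?_, mem_univ _⟩⟩
      simpa [lf_comb h t ij ht] using hw
    · rintro ⟨ij, hij, rfl⟩
      refine ⟨mem_univ _, ?_⟩
      rw [mem_product] at hij
      rw [lf_comb h t ij ht]
      exact Finset.ne_of_mem_erase hij.2
  rw [h1, Finset.card_image_of_injective _ hb.1, card_product, card_univ, ZMod.card,
    Finset.card_erase_of_mem (mem_univ _), card_univ, ZMod.card]

/-- The polynomial `P_h` -/
lemma exists_P {r : ℕ} (hr : 0 < r) (τ : k) (hτ : ∀ c : ZMod p, τ ≠ algebraMap (ZMod p) k c)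
    (h : ZMod p × ZMod p) (hh : h ≠ 0) : ∃ P : k[X], P ≠ 0 ∧
      ∏ w : ZMod p × ZMod p with lf h w ≠ 0, (VV p r τ - wd (SS p k) (TT p τ) w) =
        (SS p k * NN p τ) ^ (p - 1) * wd (SS p k) (TT p τ) (kr h) * P ∧
      P.natDegree + p ^ 3 = p * (p - 1) * (p + p * p + p * r) := by
  classical
  have hp2 := (Fact.out : p.Prime).two_le
  obtain ⟨P, hP⟩ := total_dvd r τ h hh
  have h0 : ∏ w : ZMod p × ZMod p with lf h w ≠ 0, (VV p r τ - wd (SS p k) (TT p τ) w) ≠ 0 :=
    Finset.prod_ne_zero_iff.2 fun w _ => V_sub_ne_zero hr τ hτ w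
  have hP0 : P ≠ 0 := by
    rintro rfl
    rw [mul_zero] at hP
    exact h0 hP
  have hk0 : kr h ≠ 0 := by
    intro h1
    simp only [kr, Prod.mk_eq_zero, neg_eq_zero] at h1
    exact hh (Prod.ext h1.2 h1.1)
  refine ⟨P, hP0, hP, ?_⟩
  have h2 := congrArg natDegree hP
  rw [natDegree_prod _ _ (fun w _ => V_sub_ne_zero hr τ hτ w)] at h2
  simp only [natDegree_V_sub hr τ hτ, sum_const, card_compl h hh, smul_eq_mul] at h2
  rw [natDegree_mul (mul_ne_zero (pow_ne_zero _ (SN_ne_zero τ hτ)) (wd_ne_zero τ hτ _ hk0)) hP0,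
    natDegree_mul (pow_ne_zero _ (SN_ne_zero τ hτ)) (wd_ne_zero τ hτ _ hk0), natDegree_pow,
    natDegree_SN τ hτ, natDegree_wd τ hτ _ hk0] at h2
  obtain ⟨q, rfl⟩ : ∃ q, p = q + 1 := ⟨p - 1, by omega⟩
  simp only [Nat.add_sub_cancel] at h2 ⊢
  rw [h2]
  ring

end Pool.Agent.W515.LD
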