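import Mathlib
import Pool.Agent.W515.LDPoly

set_option autoImplicit false

namespace Pool.Agent.W515.LD

open Polynomial Finset

variable {p : ℕ} [Fact p.Prime] {k : Type*} [Field k] [Algebra (ZMod p) k]

section dz

variable (k : Type*) [Field k]

/-- `dz` in the differentials of `k(z)` -/
noncomputable def dX : Ω[RatFunc k⁄k] := KaehlerDifferential.D k (RatFunc k) RatFunc.X

variable {k}

lemma D_poly (P : k[X]) : KaehlerDifferential.D k (RatFunc k) (algebraMap k[X] (RatFunc k) P) =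
    algebraMap k[X] (RatFunc k) (derivative P) • dX k := by
  have h := (KaehlerDifferential.D k (RatFunc k)).map_aeval P RatFunc.X
  have h2 : ∀ Q : k[X], aeval (RatFunc.X : RatFunc k) Q = algebraMap k[X] (RatFunc k) Q := by
    intro Q
    have h3 : (aeval (RatFunc.X : RatFunc k) : k[X] →ₐ[k] RatFunc k) =
        IsScalarTower.toAlgHom k k[X] (RatFunc k) := by
      ext
      simp
    rw [h3]
    rfl
  rw [h2, h2] at h
  exact h

lemma dX_ne_zero : dX k ≠ 0 := by
  intro h
  have h1 : KaehlerDifferential.map k k k[X] (RatFunc k) (KaehlerDifferential.D k k[X] X) =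
      KaehlerDifferential.map k k k[X] (RatFunc k) 0 := by
    rw [KaehlerDifferential.map_D, map_zero, RatFunc.algebraMap_X]
    exact h
  have hloc : IsLocalizedModule (nonZeroDivisors k[X])
      (KaehlerDifferential.map k k k[X] (RatFunc k)) := inferInstance
  obtain ⟨s, hs⟩ := (IsLocalizedModule.eq_iff_exists (nonZeroDivisors k[X])
    (KaehlerDifferential.map k k k[X] (RatFunc k))).1 h1
  have h2 := congrArg (KaehlerDifferential.polynomialEquiv k) hs
  have h3 : (s : k[X]) • (1 : k[X]) = 0 := by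
    have e : KaehlerDifferential.polynomialEquiv k (s • (KaehlerDifferential.D k k[X] X)) =
      (s : k[X]) • KaehlerDifferential.polynomialEquiv k (KaehlerDifferential.D k k[X] X) :=
      map_smul (KaehlerDifferential.polynomialEquiv k) (s : k[X]) _
    rw [e, KaehlerDifferential.polynomialEquiv_D, derivative_X, smul_zero, map_zero] at h2
    exact h2
  rw [smul_eq_mul, mul_one] at h3
  exact nonZeroDivisors.ne_zero s.2 h3

/-- `df / f` -/
noncomputable def dlog (f : RatFunc k) : Ω[RatFunc k⁄k] := f⁻¹ • KaehlerDifferential.D k (RatFunc k) f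

lemma dlog_mul (f g : RatFunc k) (hf : f ≠ 0) (hg : g ≠ 0) :
    dlog (f * g) = dlog f + dlog g := by
  simp only [dlog, Derivation.leibniz, smul_add, smul_smul]
  rw [add_comm]
  congr 2
  · field_simp
  · field_simp

lemma dlog_one : dlog (1 : RatFunc k) = 0 := by
  simp [dlog]

lemma dlog_pow (f : RatFunc k) (hf : f ≠ 0) (n : ℕ) : dlog (f ^ n) = n • dlog f := by
  induction n with
  | zero => rw [pow_zero, dlog_one, zero_smul]
  | succ n ih => rw [pow_succ, dlog_mul _ _ (pow_ne_zero _ hf) hf, ih, succ_nsmul]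

lemma dlog_prod {ι : Type*} (s : Finset ι) (f : ι → RatFunc k) (n : ι → ℕ)
    (hf : ∀ i ∈ s, f i ≠ 0) : dlog (∏ i ∈ s, f i ^ n i) = ∑ i ∈ s, n i • dlog (f i) := by
  classical
  induction s using Finset.induction_on with
  | empty => simp [dlog_one]
  | insert a s ha ih =>
    rw [Finset.prod_insert ha, Finset.sum_insert ha, dlog_mul, dlog_pow _ (hf a (mem_insert_self _ _)),
      ih fun i hi => hf i (mem_insert_of_mem hi)]
    · exact pow_ne_zero _ (hf a (mem_insert_self _ _))
    · exact Finset.prod_ne_zero_iff.2 fun i hi => pow_ne_zero _ (hf i (mem_insert_of_mem hi))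

end dz

/-- the rational function `V - w` -/
noncomputable def fw (r : ℕ) (τ : k) (w : ZMod p × ZMod p) : RatFunc k :=
  algebraMap k[X] (RatFunc k) (VV p r τ - wd (SS p k) (TT p τ) w)

/-- the space of logarithmic forms -/
noncomputable def form (r : ℕ) (τ : k) : (ZMod p × ZMod p) →ₗ[ZMod p] Ω[RatFunc k⁄k] where
  toFun h := ∑ w : ZMod p × ZMod p, lf h w • dlog (fw r τ w)
  map_add' h h' := by
    rw [← Finset.sum_add_distrib]
    apply Finset.sum_congr rfl
    intro w _
    rw [← add_smul]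
    congr 1
    simp only [lf, Prod.fst_add, Prod.snd_add]
    ring
  map_smul' c h := by
    rw [Finset.smul_sum]
    apply Finset.sum_congr rfl
    intro w _
    rw [smul_smul]
    congr 1
    simp only [lf, Prod.smul_fst, Prod.smul_snd, smul_eq_mul, RingHom.id_apply]
    ring

lemma form_apply (r : ℕ) (τ : k) (h : ZMod p × ZMod p) :
    form r τ h = ∑ w : ZMod p × ZMod p, lf h w • dlog (fw r τ w) := rfl

lemma form_log {r : ℕ} (hr : 0 < r) (τ : k) (hτ : ∀ c : ZMod p, τ ≠ algebraMap (ZMod p) k c)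
    (h : ZMod p × ZMod p) : ∃ f : RatFunc k, f ≠ 0 ∧ form r τ h = dlog f := by
  have hf : ∀ w, fw (p := p) r τ w ≠ 0 := by
    intro w
    rw [fw, ne_eq, FaithfulSMul.algebraMap_eq_zero_iff]
    exact V_sub_ne_zero hr τ hτ w
  refine ⟨∏ w : ZMod p × ZMod p, fw r τ w ^ (lf h w).val,
    Finset.prod_ne_zero_iff.2 fun w _ => pow_ne_zero _ (hf w), ?_⟩
  rw [dlog_prod _ _ _ fun w _ => hf w, form_apply]
  apply Finset.sum_congr rfl
  intro w _
  rw [← Nat.cast_smul_eq_nsmul (ZMod p), ZMod.natCast_zmod_val]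

lemma form_eq {r : ℕ} (hr : 0 < r) (τ : k) (hτ : ∀ c : ZMod p, τ ≠ algebraMap (ZMod p) k c)
    (h : ZMod p × ZMod p) (hh : h ≠ 0) : ∃ P : k[X], P ≠ 0 ∧
      P.natDegree + p ^ 3 = p * (p - 1) * (p + p * p + p * r) ∧
      form r τ h = (algebraMap k[X] (RatFunc k) P)⁻¹ • dX k := by
  classical
  have hp2 := (Fact.out : p.Prime).two_le
  obtain ⟨P, hP0, hP, hdeg⟩ := exists_P hr τ hτ h hh
  refine ⟨P, hP0, hdeg, ?_⟩
  set φ := algebraMap k[X] (RatFunc k) with hφ
  have hφ0 : ∀ Q : k[X], Q ≠ 0 → φ Q ≠ 0 := by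
    intro Q hQ
    rw [hφ, ne_eq, FaithfulSMul.algebraMap_eq_zero_iff]
    exact hQ
  have hk0 : kr h ≠ 0 := by
    intro h1
    simp only [kr, Prod.mk_eq_zero, neg_eq_zero] at h1
    exact hh (Prod.ext h1.2 h1.1)
  have hwd : ∀ w : ZMod p × ZMod p, φ (wd (SS p k) (TT p τ) w) =
      wd (φ (SS p k)) (φ (TT p τ)) w := by
    intro w
    simp only [wd, map_add, map_mul]
    rw [hφ, ← IsScalarTower.algebraMap_apply, ← IsScalarTower.algebraMap_apply]
  have hD : φ (SS p k * NN p τ) = φ (SS p k) * φ (TT p τ) ^ p - φ (SS p k) ^ p * φ (TT p τ) := by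
    rw [NN_eq, map_mul, map_sub, map_mul, map_pow, map_pow,
      ← pow_sub_one_mul (show p ≠ 0 by omega) (φ (SS p k))]
    ring
  have hD0 := hφ0 _ (SN_ne_zero (p := p) τ hτ)
  have hsum := main_sum (φ (SS p k)) (φ (TT p τ)) (φ (VV p r τ)) h hh (by rw [← hD]; exact hD0)
    (by
      intro w
      rw [← hwd, ← map_sub]
      exact hφ0 _ (V_sub_ne_zero hr τ hτ w))
  rw [← hD] at hsum
  have hprod : ∏ w : ZMod p × ZMod p with lf h w ≠ 0,
      (φ (VV p r τ) - wd (φ (SS p k)) (φ (TT p τ)) w) =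
      φ (SS p k * NN p τ) ^ (p - 1) * wd (φ (SS p k)) (φ (TT p τ)) (kr h) * φ P := by
    rw [← hwd, ← map_pow, ← map_mul, ← map_mul, ← hP, map_prod]
    apply Finset.prod_congr rfl
    intro w _
    rw [map_sub, hwd]
  rw [hprod] at hsum
  have hterm : ∀ w : ZMod p × ZMod p, lf h w • dlog (fw r τ w) =
      (algebraMap (ZMod p) (RatFunc k) (lf h w) *
        (φ (VV p r τ) - wd (φ (SS p k)) (φ (TT p τ)) w)⁻¹ * φ (SS p k * NN p τ)) • dX k := by
    intro w
    rw [dlog, fw, D_poly, derivative_sub, der_VV, der_wd, sub_zero, ← hφ, map_sub, hwd,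
      ← algebraMap_smul (RatFunc k) (lf h w), smul_smul, smul_smul]
  rw [form_apply, Finset.sum_congr rfl fun w _ => hterm w, ← Finset.sum_smul, ← Finset.sum_mul,
    hsum]
  congr 1
  have h1 := hφ0 _ hP0
  have h2 : wd (φ (SS p k)) (φ (TT p τ)) (kr h) ≠ 0 := by
    rw [← hwd]
    exact hφ0 _ (wd_ne_zero τ hτ _ hk0)
  have h3 : φ (SS p k * NN p τ) ^ (p - 1) =
      φ (SS p k * NN p τ) ^ (p - 2) * φ (SS p k * NN p τ) := by
    rw [← pow_succ]
    congr 1
    omega
  rw [h3]
  field_simp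

lemma form_injective {r : ℕ} (hr : 0 < r) (τ : k)
    (hτ : ∀ c : ZMod p, τ ≠ algebraMap (ZMod p) k c) :
    Function.Injective (form (p := p) r τ) := by
  rw [← LinearMap.ker_eq_bot, LinearMap.ker_eq_bot']
  intro h h0
  by_contra hh
  obtain ⟨P, hP0, -, hP⟩ := form_eq hr τ hτ h hh
  rw [h0] at hP
  rcases smul_eq_zero.1 hP.symm with h1 | h1
  · rw [inv_eq_zero, FaithfulSMul.algebraMap_eq_zero_iff] at h1
    exact hP0 h1
  · exact dX_ne_zero h1

end Pool.Agent.W515.LD
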